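import Pool.Agent.J4H48.HB.Stm
import Pool.Agent.J4H48.HK.Close

/-!
CLOSE, after `Pool.Agent.J4H48.HK.Close` and `Pool.Agent.J4H93.HN.Close`.
-/

set_option autoImplicit false

open Polynomial

namespace Pool.Agent.J4H48.HB

open Pool.Agent.J4H48.HK (norm_prod_le_pow prod_sub_le)

theorem close1 (hP : S_PAIR) (G : ℂ[X]) (μ : ℂ) (d n D : ℕ) (c c₀ r : ℝ) (hn : 1 ≤ n)
    (hnD : n ≤ D) (hDd : D < d) (hd : 2 ≤ d) (hG : G.Monic) (hGd : G.natDegree = d) (hc : 0 ≤ c)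
    (hc₀ : 0 ≤ c₀) (hr : 1 ≤ r) :
    ∃ ε R K : ℝ, 0 < ε ∧ 1 ≤ R ∧ 1 ≤ K ∧ ∀ (γ γ' : ℂ) (W W' : Fin n → Fin 3 → ℂ),
    (∀ j i, 1 / r * ‖γ‖ ^ (1 / (d : ℝ)) ≤ ‖W j i‖ ∧ ‖W j i‖ ≤ r * ‖γ‖ ^ (1 / (d : ℝ)) ∧
      ‖G.eval (W j i) + μ * γ‖ ≤ c * ‖γ‖ ^ (1 / (d : ℝ))) →
    (∀ j i, 1 / r * ‖γ'‖ ^ (1 / (d : ℝ)) ≤ ‖W' j i‖ ∧
      ‖W' j i‖ ≤ r * ‖γ'‖ ^ (1 / (d : ℝ)) ∧
      ‖G.eval (W' j i) + μ * γ'‖ ≤ c * ‖γ'‖ ^ (1 / (d : ℝ))) →
    R ≤ ‖γ‖ → R ≤ ‖γ'‖ →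
    ‖γ - γ'‖ ≤ c₀ * (max ‖γ‖ ‖γ'‖) ^ (1 - (D : ℝ) / d) →
    (∀ j i, ‖W j i / ((‖γ‖ ^ (1 / (d : ℝ)) : ℝ) : ℂ) -
      W' j i / ((‖γ'‖ ^ (1 / (d : ℝ)) : ℝ) : ℂ)‖ ≤ ε) →
    ∀ (t : Fin n) (i : Fin 3),
      ‖∏ j, (((t : ℕ) : ℂ) - W j i) - ∏ j, (((t : ℕ) : ℂ) - W' j i)‖ ≤ K := by
  obtain ⟨ε, R₀, K₀, hε, hR₀, hK₀, H⟩ := hP G d hd hG hGd r hr
  obtain ⟨c', hc'e⟩ : ∃ c' : ℝ, c' = ‖μ‖ * c₀ := ⟨_, rfl⟩
  have hc' : 0 ≤ c' := by rw [hc'e]; positivity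
  have hd0 : (0 : ℝ) < d := by positivity
  have hdne : (d : ℝ) ≠ 0 := hd0.ne'
  have hB0 : 0 ≤ K₀ * (c' + 2 * c) := by positivity
  refine ⟨ε, R₀ ^ d, n * (K₀ * (c' + 2 * c)) * ((n : ℝ) + r) ^ n + 1, hε, one_le_pow₀ hR₀, ?_, ?_⟩
  · have : 0 ≤ n * (K₀ * (c' + 2 * c)) * ((n : ℝ) + r) ^ n := by positivity
    linarith
  intro γ γ' W W' hW hW' hγ hγ' hγγ hdir t i
  set g : ℝ := ‖γ‖ ^ (1 / (d : ℝ)) with hg
  set g' : ℝ := ‖γ'‖ ^ (1 / (d : ℝ)) with hg'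
  have root : ∀ x : ℝ, R₀ ^ d ≤ x → R₀ ≤ x ^ (1 / (d : ℝ)) := by
    intro x hx
    have h1 : (R₀ ^ d) ^ (1 / (d : ℝ)) = R₀ := by
      rw [one_div]
      exact Real.pow_rpow_inv_natCast (by linarith) (by omega)
    rw [← h1]
    exact Real.rpow_le_rpow (by positivity) hx (by positivity)
  have hgR : R₀ ≤ g := root _ hγ
  have hgR' : R₀ ≤ g' := root _ hγ'
  set M : ℝ := max ‖γ‖ ‖γ'‖ with hM
  have hM1 : 1 ≤ M := by
    have h1 : (1 : ℝ) ≤ R₀ ^ d := one_le_pow₀ hR₀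
    exact h1.trans (hγ.trans (le_max_left _ _))
  set m : ℝ := max g g' with hm
  have hm1 : 1 ≤ m := hR₀.trans (hgR.trans (le_max_left _ _))
  have hmM : m = M ^ (1 / (d : ℝ)) := by
    have hmono : ∀ x y : ℝ, 0 ≤ x → x ≤ y → x ^ (1 / (d : ℝ)) ≤ y ^ (1 / (d : ℝ)) :=
      fun x y hx hxy => Real.rpow_le_rpow hx hxy (by positivity)
    rcases le_total ‖γ‖ ‖γ'‖ with h | h
    · rw [hm, hM, max_eq_right h, max_eq_right (hmono _ _ (norm_nonneg _) h)]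
    · rw [hm, hM, max_eq_left h, max_eq_left (hmono _ _ (norm_nonneg _) h)]
  have hpow : M ^ (1 - (D : ℝ) / d) = m ^ (d - D) := by
    rw [hmM, ← Real.rpow_natCast, ← Real.rpow_mul (by linarith), Nat.cast_sub hDd.le]
    congr 1
    field_simp
  have hdD : m ≤ m ^ (d - D) := by
    calc m = m ^ 1 := (pow_one m).symm
      _ ≤ m ^ (d - D) := pow_le_pow_right₀ hm1 (by omega)
  have g0 : 0 < g := by linarith
  have g0' : 0 < g' := by linarith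
  -- the distance of the members
  have hdist : ∀ j, ‖W j i - W' j i‖ * m ^ (D - 1) ≤ K₀ * (c' + 2 * c) := by
    intro j
    have e1 : (g : ℂ) * (W j i / (g : ℂ)) = W j i := by
      have : (g : ℂ) ≠ 0 := by exact_mod_cast g0.ne'
      field_simp
    have e2 : (g' : ℂ) * (W' j i / (g' : ℂ)) = W' j i := by
      have : (g' : ℂ) ≠ 0 := by exact_mod_cast g0'.ne'
      field_simp
    have n1 : ‖W j i / (g : ℂ)‖ = ‖W j i‖ / g := by
      rw [norm_div, Complex.norm_real, Real.norm_eq_abs, abs_of_pos g0]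
    have n2 : ‖W' j i / (g' : ℂ)‖ = ‖W' j i‖ / g' := by
      rw [norm_div, Complex.norm_real, Real.norm_eq_abs, abs_of_pos g0']
    have h1 := H g g' (W j i / (g : ℂ)) (W' j i / (g' : ℂ)) hgR hgR'
      (by rw [n1, le_div_iff₀ g0]; exact (hW j i).1)
      (by rw [n1, div_le_iff₀ g0]; exact (hW j i).2.1)
      (by rw [n2, le_div_iff₀ g0']; exact (hW' j i).1)
      (by rw [n2, div_le_iff₀ g0']; exact (hW' j i).2.1)
      (hdir j i)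
    rw [e1, e2, ← hm] at h1
    have h2 : ‖G.eval (W j i) - G.eval (W' j i)‖ ≤ (c' + 2 * c) * m ^ (d - D) := by
      have e3 : G.eval (W j i) - G.eval (W' j i) =
          (G.eval (W j i) + μ * γ) - (G.eval (W' j i) + μ * γ') -
            μ * (γ - γ') := by
        ring
      have f1 : ‖G.eval (W j i) + μ * γ‖ ≤ c * m :=
        ((hW j i).2.2).trans (mul_le_mul_of_nonneg_left (le_max_left _ _) hc)
      have f2 : ‖G.eval (W' j i) + μ * γ'‖ ≤ c * m :=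
        ((hW' j i).2.2).trans (mul_le_mul_of_nonneg_left (le_max_right _ _) hc)
      have f3 : ‖μ * (γ - γ')‖ ≤ c' * m ^ (d - D) := by
        rw [norm_mul, ← hpow, hc'e, mul_assoc]
        exact mul_le_mul_of_nonneg_left hγγ (norm_nonneg _)
      rw [e3]
      refine (norm_sub_le _ _).trans ?_
      have f4 := norm_sub_le (G.eval (W j i) + μ * γ) (G.eval (W' j i) + μ * γ')
      have f5 : c * m ≤ c * m ^ (d - D) := mul_le_mul_of_nonneg_left hdD hc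
      nlinarith
    have h3 : ‖W j i - W' j i‖ * m ^ (d - 1) ≤ K₀ * ((c' + 2 * c) * m ^ (d - D)) :=
      h1.trans (mul_le_mul_of_nonneg_left h2 (by linarith))
    have e4 : m ^ (d - 1) = m ^ (D - 1) * m ^ (d - D) := by
      rw [← pow_add]; congr 1; omega
    rw [e4] at h3
    have hp : 0 < m ^ (d - D) := by positivity
    have h4 : (‖W j i - W' j i‖ * m ^ (D - 1)) * m ^ (d - D) ≤
        (K₀ * (c' + 2 * c)) * m ^ (d - D) := by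
      linarith
    exact le_of_mul_le_mul_right h4 hp
  have hmD : 0 < m ^ (D - 1) := by positivity
  set B : ℝ := K₀ * (c' + 2 * c) with hB
  have hdist' : ∀ j ∈ (Finset.univ : Finset (Fin n)),
      ‖(((t : ℕ) : ℂ) - W j i) - (((t : ℕ) : ℂ) - W' j i)‖ ≤ B / m ^ (D - 1) := by
    intro j _
    rw [le_div_iff₀ hmD]
    have e5 : (((t : ℕ) : ℂ) - W j i) - (((t : ℕ) : ℂ) - W' j i) = -(W j i - W' j i) := by ring
    rw [e5, norm_neg]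
    exact hdist j
  have ht : ‖((t : ℕ) : ℂ)‖ ≤ n := by
    rw [Complex.norm_natCast]
    exact_mod_cast t.2.le
  have hn0 : (0 : ℝ) ≤ n := by positivity
  have hsz : ∀ j ∈ (Finset.univ : Finset (Fin n)), ‖((t : ℕ) : ℂ) - W j i‖ ≤ ((n : ℝ) + r) * m := by
    intro j _
    have k1 := norm_sub_le ((t : ℕ) : ℂ) (W j i)
    have k2 : ‖W j i‖ ≤ r * m := ((hW j i).2.1).trans
      (mul_le_mul_of_nonneg_left (le_max_left g g') (by linarith))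
    nlinarith
  have hsz' : ∀ j ∈ (Finset.univ : Finset (Fin n)),
      ‖((t : ℕ) : ℂ) - W' j i‖ ≤ ((n : ℝ) + r) * m := by
    intro j _
    have k1 := norm_sub_le ((t : ℕ) : ℂ) (W' j i)
    have k2 : ‖W' j i‖ ≤ r * m := ((hW' j i).2.1).trans
      (mul_le_mul_of_nonneg_left (le_max_right g g') (by linarith))
    nlinarith
  have hQ : 0 < ((n : ℝ) + r) * m := by positivity
  have hfin := prod_sub_le (Finset.univ : Finset (Fin n)) (fun j => ((t : ℕ) : ℂ) - W j i)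
    (fun j => ((t : ℕ) : ℂ) - W' j i) (B / m ^ (D - 1)) (((n : ℝ) + r) * m) hQ.le hdist' hsz hsz'
  rw [Finset.card_univ, Fintype.card_fin] at hfin
  obtain ⟨k, rfl⟩ : ∃ k, n = k + 1 := ⟨n - 1, by omega⟩
  have h5 : ‖∏ j, (((t : ℕ) : ℂ) - W j i) - ∏ j, (((t : ℕ) : ℂ) - W' j i)‖ ≤
      ((k + 1 : ℕ) : ℝ) * (B / m ^ (D - 1)) * ((((k + 1 : ℕ) : ℝ) + r) * m) ^ k := by
    refine le_of_mul_le_mul_right ?_ hQ
    refine hfin.trans (le_of_eq ?_)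
    rw [pow_succ]; ring
  have h6 : B / m ^ (D - 1) * m ^ k ≤ B := by
    rw [div_mul_eq_mul_div, div_le_iff₀ hmD]
    exact mul_le_mul_of_nonneg_left (pow_le_pow_right₀ hm1 (by omega)) hB0
  have h7 : (((k + 1 : ℕ) : ℝ) + r) ^ k ≤ (((k + 1 : ℕ) : ℝ) + r) ^ (k + 1) :=
    pow_le_pow_right₀ (by linarith) (by omega)
  have h8 : 0 ≤ (((k + 1 : ℕ) : ℝ) + r) ^ k := by positivity
  calc _ ≤ ((k + 1 : ℕ) : ℝ) * (B / m ^ (D - 1)) * ((((k + 1 : ℕ) : ℝ) + r) * m) ^ k := h5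
    _ = ((k + 1 : ℕ) : ℝ) * (((k + 1 : ℕ) : ℝ) + r) ^ k * (B / m ^ (D - 1) * m ^ k) := by
        rw [mul_pow]; ring
    _ ≤ ((k + 1 : ℕ) : ℝ) * (((k + 1 : ℕ) : ℝ) + r) ^ k * B :=
        mul_le_mul_of_nonneg_left h6 (by positivity)
    _ ≤ ((k + 1 : ℕ) : ℝ) * (((k + 1 : ℕ) : ℝ) + r) ^ (k + 1) * B :=
        mul_le_mul_of_nonneg_right (mul_le_mul_of_nonneg_left h7 hn0) hB0
    _ ≤ _ := by linarith

theorem closeT (hP : S_PAIR) (G : ℂ[X]) (μ : ℂ) (d n D : ℕ) (R c c₀ r : ℝ) (hn : 1 ≤ n)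
    (hnD : n ≤ D) (hDd : D < d) (hd : 2 ≤ d) (hG : G.Monic) (hGd : G.natDegree = d) (hR : 1 ≤ R)
    (hc : 0 ≤ c) (hc₀ : 0 ≤ c₀) (hr : 1 ≤ r) :
    ∃ ε K : ℝ, 0 < ε ∧ 1 ≤ K ∧ ∀ (γ γ' : ℂ) (W W' : Fin n → Fin 3 → ℂ),
    (∀ j i, (R ≤ ‖γ‖ → 1 / r * sz d γ ≤ ‖W j i‖) ∧ ‖W j i‖ ≤ r * sz d γ ∧
      ‖G.eval (W j i) + μ * γ‖ ≤ c * sz d γ) →
    (∀ j i, (R ≤ ‖γ'‖ → 1 / r * sz d γ' ≤ ‖W' j i‖) ∧ ‖W' j i‖ ≤ r * sz d γ' ∧
      ‖G.eval (W' j i) + μ * γ'‖ ≤ c * sz d γ') →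
    ‖γ - γ'‖ ≤ c₀ * (max 1 (max ‖γ‖ ‖γ'‖)) ^ (1 - (D : ℝ) / d) →
    (∀ j i, ‖W j i / ((sz d γ : ℝ) : ℂ) - W' j i / ((sz d γ' : ℝ) : ℂ)‖ ≤ ε) →
    ∀ (t : Fin n) (i : Fin 3),
      ‖∏ j, (((t : ℕ) : ℂ) - W j i) - ∏ j, (((t : ℕ) : ℂ) - W' j i)‖ ≤ K := by
  obtain ⟨ε, R₁, K₁, hε, hR₁, hK₁, H⟩ := close1 hP G μ d n D c c₀ r hn hnD hDd hd hG hGd hc hc₀ hr
  have hd0 : (0 : ℝ) < d := by
    have : 0 < d := by omega
    exact_mod_cast this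
  obtain ⟨X, hX⟩ : ∃ X : ℝ, X = (2 * c₀ + 1) ^ d + 2 * (R + R₁) := ⟨_, rfl⟩
  have hXp : (0 : ℝ) ≤ (2 * c₀ + 1) ^ d := by positivity
  have hX1 : 1 ≤ X := by linarith
  have hn0 : (0 : ℝ) ≤ n := Nat.cast_nonneg _
  refine ⟨ε, K₁ + 2 * (n + r * X) ^ n, hε, by
    have : 0 ≤ 2 * (n + r * X) ^ n := by positivity
    linarith, ?_⟩
  intro γ γ' W W' hW hW' hγγ hdir t i
  obtain ⟨M, hM⟩ : ∃ M : ℝ, M = max ‖γ‖ ‖γ'‖ := ⟨_, rfl⟩
  rw [← hM] at hγγ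
  by_cases hMX : M ≤ X
  · -- everything is bounded
    have hsz : ∀ z : ℂ, ‖z‖ ≤ X → sz d z ≤ X := by
      intro z hz
      unfold sz
      have h1 : (1 : ℝ) ≤ max 1 ‖z‖ := le_max_left _ _
      calc (max 1 ‖z‖) ^ (1 / (d : ℝ)) ≤ (max 1 ‖z‖) ^ (1 : ℝ) := by
            apply Real.rpow_le_rpow_of_exponent_le h1
            rw [div_le_one hd0]
            have : 1 ≤ d := by omega
            exact_mod_cast this
        _ = max 1 ‖z‖ := Real.rpow_one _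
        _ ≤ X := max_le hX1 hz
    have ht : ‖((t : ℕ) : ℂ)‖ ≤ n := by
      rw [Complex.norm_natCast]
      exact_mod_cast t.2.le
    have hone : ∀ (z : ℂ) (V : Fin n → Fin 3 → ℂ), ‖z‖ ≤ X → (∀ j i, ‖V j i‖ ≤ r * sz d z) →
        ‖∏ j, (((t : ℕ) : ℂ) - V j i)‖ ≤ (n + r * X) ^ n := by
      intro z V hz hV
      have h1 := norm_prod_le_pow (Finset.univ : Finset (Fin n)) (fun j => ((t : ℕ) : ℂ) - V j i)
        (n + r * X) (by
          intro j _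
          have k1 := norm_sub_le ((t : ℕ) : ℂ) (V j i)
          have k2 : ‖V j i‖ ≤ r * X :=
            (hV j i).trans (mul_le_mul_of_nonneg_left (hsz z hz) (by linarith))
          linarith)
      rwa [Finset.card_univ, Fintype.card_fin] at h1
    have h1 := hone γ W ((le_max_left _ _).trans (hM ▸ hMX)) fun j i => (hW j i).2.1
    have h2 := hone γ' W' ((le_max_right _ _).trans (hM ▸ hMX)) fun j i => (hW' j i).2.1
    refine (norm_sub_le _ _).trans ?_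
    linarith
  · push Not at hMX
    have hM1 : 1 ≤ M := by linarith
    have hM0 : 0 < M := by linarith
    rw [max_eq_right hM1] at hγγ
    have hhalf : c₀ * M ^ (1 - (D : ℝ) / d) ≤ M / 2 := by
      have h1 : (2 * c₀ + 1) ≤ M ^ ((D : ℝ) / d) := by
        have h2 : ((2 * c₀ + 1) ^ d) ^ (1 / (d : ℝ)) = 2 * c₀ + 1 := by
          rw [one_div]
          exact Real.pow_rpow_inv_natCast (by linarith) (by omega)
        rw [← h2]
        calc ((2 * c₀ + 1) ^ d) ^ (1 / (d : ℝ)) ≤ M ^ (1 / (d : ℝ)) := by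
              apply Real.rpow_le_rpow hXp _ (by positivity)
              linarith
          _ ≤ M ^ ((D : ℝ) / d) := by
              apply Real.rpow_le_rpow_of_exponent_le hM1
              apply div_le_div_of_nonneg_right _ hd0.le
              have : 1 ≤ D := by omega
              exact_mod_cast this
      have h3 : M ^ (1 - (D : ℝ) / d) * M ^ ((D : ℝ) / d) = M := by
        rw [← Real.rpow_add hM0]
        rw [sub_add_cancel, Real.rpow_one]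
      have h4 : 0 < M ^ (1 - (D : ℝ) / d) := Real.rpow_pos_of_pos hM0 _
      nlinarith
    have hdiff : ‖γ - γ'‖ ≤ M / 2 := hγγ.trans hhalf
    have hlow : M / 2 ≤ ‖γ‖ ∧ M / 2 ≤ ‖γ'‖ := by
      have k1 := norm_sub_norm_le γ γ'
      have k2 := norm_sub_norm_le γ' γ
      rw [norm_sub_rev] at k2
      rcases le_total ‖γ‖ ‖γ'‖ with h | h
      · rw [max_eq_right h] at hM
        constructor <;> linarith
      · rw [max_eq_left h] at hM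
        constructor <;> linarith
    have hγR : R ≤ ‖γ‖ ∧ R₁ ≤ ‖γ‖ ∧ 1 ≤ ‖γ‖ := by
      refine ⟨?_, ?_, ?_⟩ <;> linarith [hlow.1]
    have hγR' : R ≤ ‖γ'‖ ∧ R₁ ≤ ‖γ'‖ ∧ 1 ≤ ‖γ'‖ := by
      refine ⟨?_, ?_, ?_⟩ <;> linarith [hlow.2]
    have e1 : sz d γ = ‖γ‖ ^ (1 / (d : ℝ)) := by
      unfold sz
      rw [max_eq_right hγR.2.2]
    have e2 : sz d γ' = ‖γ'‖ ^ (1 / (d : ℝ)) := by
      unfold sz
      rw [max_eq_right hγR'.2.2]
    have h1 := H γ γ' W W' (fun j i => by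
        rw [← e1]
        exact ⟨(hW j i).1 hγR.1, (hW j i).2.1, (hW j i).2.2⟩) (fun j i => by
        rw [← e2]
        exact ⟨(hW' j i).1 hγR'.1, (hW' j i).2.1, (hW' j i).2.2⟩) hγR.2.1 hγR'.2.1 (by
        rw [← hM]
        exact hγγ) (fun j i => by
        rw [← e1, ← e2]
        exact hdir j i) t i
    have h2 : 0 ≤ 2 * (n + r * X) ^ n := by positivity
    linarith

theorem t_CLOSE (hP : S_PAIR) : S_CLOSE := by
  intro T _ Λ G A α β d n D R c c' r hn hnD hDd hd hG hGd hR hc hc' hr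
  have h := fun τ =>
    closeT hP (G τ) (A τ) d n D R c c' r hn hnD hDd hd (hG τ) (hGd τ) hR hc hc' hr
  choose ε K hε hK H using h
  have hS : 0 ≤ ∑ τ, 1 / ε τ := Finset.sum_nonneg fun τ _ => by
    have := hε τ
    positivity
  have hKs : 0 ≤ ∑ τ, K τ := Finset.sum_nonneg fun τ _ => by linarith [hK τ]
  refine ⟨1 / (∑ τ, 1 / ε τ + 1), 1 + ∑ τ, K τ, by positivity, by linarith, ?_⟩
  intro γ γ' W W' hW hW' hγγ hdir τ t i
  have hετ : 1 / (∑ τ, 1 / ε τ + 1) ≤ ε τ := by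
    have h1 : 1 / ε τ ≤ ∑ τ, 1 / ε τ := Finset.single_le_sum (f := fun τ => 1 / ε τ)
      (fun τ _ => by
        have := hε τ
        positivity) (Finset.mem_univ τ)
    have h2 := hε τ
    rw [div_le_iff₀ (by linarith)]
    rw [div_le_iff₀ h2] at h1
    nlinarith
  have hKτ : K τ ≤ ∑ τ, K τ := Finset.single_le_sum (f := K)
    (fun τ _ => by linarith [hK τ]) (Finset.mem_univ τ)
  have h3 := H τ (γ τ) (γ' τ) (W τ) (W' τ)
    (fun j i => ⟨hW.lo τ j i, hW.hi τ j i, hW.near τ j i⟩)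
    (fun j i => ⟨hW'.lo τ j i, hW'.hi τ j i, hW'.near τ j i⟩) (hγγ τ)
    (fun j i => (hdir τ j i).trans hετ) t i
  linarith

end Pool.Agent.J4H48.HB
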