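import Pool.Agent.J4H48.HB.Stm
import Pool.Agent.J4H48.HK.Cnt

/-!
The pigeonhole: `S_CLOSE → S_CNT`.
-/

set_option autoImplicit false

open Finset Polynomial

namespace Pool.Agent.J4H48.HB

theorem fib1 {T : Type} [Nonempty T] (Λ : AddSubgroup (T → ℂ)) (G : T → ℂ[X])
    (A α β : T → ℂ) (d n : ℕ) (R c r : ℝ) (hn : 1 ≤ n) (hA : ∀ τ, A τ ≠ 0)
    (V : Finset (T → ℂ)) (hsep : ∀ γ ∈ V, ∀ γ' ∈ V, ∀ τ, γ τ = γ' τ → γ = γ')
    (W : (T → ℂ) → T → Fin n → Fin 3 → ℂ) (hW : ∀ γ ∈ V, Good Λ G A α β d n R c r γ (W γ))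
    (hsame : ∀ γ ∈ V, ∀ γ' ∈ V, ∀ (τ : T) (t : Fin n) (i : Fin 3),
      ∏ j, (((t : ℕ) : ℂ) - W γ τ j i) = ∏ j, (((t : ℕ) : ℂ) - W γ' τ j i)) :
    V.card ≤ n ^ 3 := by
  classical
  rcases V.eq_empty_or_nonempty with h | ⟨γ₁, hγ₁⟩
  · rw [h]; simp
  have hne : Nonempty (Fin n) := ⟨⟨0, hn⟩⟩
  obtain ⟨τ⟩ := ‹Nonempty T›
  have hch : ∀ γ ∈ V, ∀ i : Fin 3, ∃ j1, W γ τ ⟨0, hn⟩ i = W γ₁ τ j1 i := fun γ hγ i =>
    Pool.Agent.J4H48.HK.root (fun j => W γ τ j i) (fun j => W γ₁ τ j i) (fun t => hsame γ hγ γ₁ hγ₁ τ t i) ⟨0, hn⟩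
  choose! f hf using hch
  have h1 : V.card ≤ (Finset.univ : Finset (Fin n × Fin n × Fin n)).card := by
    apply Finset.card_le_card_of_injOn (fun γ => (f γ 0, f γ 1, f γ 2)) (by simp)
    intro γ hγ γ' hγ' h
    rw [Finset.mem_coe] at hγ hγ'
    have e1 := (hW γ hγ).rel τ ⟨0, hn⟩
    have e2 := (hW γ' hγ').rel τ ⟨0, hn⟩
    have h' : f γ 0 = f γ' 0 ∧ f γ 1 = f γ' 1 ∧ f γ 2 = f γ' 2 := by
      simpa [Prod.ext_iff] using h
    rw [hf γ hγ 0, hf γ hγ 1, hf γ hγ 2, h'.1, h'.2.1, h'.2.2] at e1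
    rw [hf γ' hγ' 0, hf γ' hγ' 1, hf γ' hγ' 2] at e2
    have h2 : A τ * γ τ = A τ * γ' τ := by linear_combination e1 - e2
    exact hsep γ hγ γ' hγ' τ (mul_left_cancel₀ (hA τ) h2)
  rw [Finset.card_univ, Fintype.card_prod, Fintype.card_prod, Fintype.card_fin] at h1
  calc V.card ≤ n * (n * n) := h1
    _ = n ^ 3 := by ring

theorem fib2 {T : Type} [Nonempty T] (Λ : AddSubgroup (T → ℂ)) (G : T → ℂ[X])
    (A α β : T → ℂ) (d n : ℕ) (R c r : ℝ) (hn : 1 ≤ n) (hA : ∀ τ, A τ ≠ 0)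
    (V : Finset (T → ℂ)) (hsep : ∀ γ ∈ V, ∀ γ' ∈ V, ∀ τ, γ τ = γ' τ → γ = γ')
    (W : (T → ℂ) → T → Fin n → Fin 3 → ℂ) (hW : ∀ γ ∈ V, Good Λ G A α β d n R c r γ (W γ)) (K : ℝ)
    (hfin : {x : T → ℂ | x ∈ Λ ∧ ∀ τ, ‖x τ‖ ≤ K}.Finite)
    (hK : ∀ γ ∈ V, ∀ γ' ∈ V, ∀ (τ : T) (t : Fin n) (i : Fin 3),
      ‖∏ j, (((t : ℕ) : ℂ) - W γ τ j i) - ∏ j, (((t : ℕ) : ℂ) - W γ' τ j i)‖ ≤ K) :
    V.card ≤ n ^ 3 * (hfin.toFinset.card ^ 3) ^ n := by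
  classical
  rcases V.eq_empty_or_nonempty with h | ⟨γ₀, hγ₀⟩
  · rw [h]; simp
  let B : (T → ℂ) → (Fin n → Fin 3 → T → ℂ) := fun γ t i τ =>
    ∏ j, (((t : ℕ) : ℂ) - W γ τ j i) - ∏ j, (((t : ℕ) : ℂ) - W γ₀ τ j i)
  have himg : V.image B ⊆ Fintype.piFinset fun _ : Fin n => Fintype.piFinset fun _ : Fin 3 =>
      hfin.toFinset := by
    intro x hx
    rw [mem_image] at hx
    obtain ⟨γ, hγ, rfl⟩ := hx
    rw [Fintype.mem_piFinset]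
    intro t
    rw [Fintype.mem_piFinset]
    intro i
    rw [Set.Finite.mem_toFinset]
    refine ⟨?_, fun τ => hK γ hγ γ₀ hγ₀ τ t i⟩
    have h1 := (hW γ hγ).int ((t : ℕ) : ℤ) i
    have h2 := (hW γ₀ hγ₀).int ((t : ℕ) : ℤ) i
    have h3 := Λ.sub_mem h1 h2
    have e : B γ t i = (fun τ => ∏ j, ((((t : ℕ) : ℤ) : ℂ) - W γ τ j i)) -
        fun τ => ∏ j, ((((t : ℕ) : ℤ) : ℂ) - W γ₀ τ j i) := by
      funext τ
      rw [Pi.sub_apply]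
      simp only [Int.cast_natCast]
      rfl
    rw [e]
    exact h3
  have hcard : (V.image B).card ≤ (hfin.toFinset.card ^ 3) ^ n := by
    refine (card_le_card himg).trans (le_of_eq ?_)
    rw [Fintype.card_piFinset_const, Fintype.card_piFinset_const]
  have hfib : ∀ a ∈ V.image B, (V.filter fun γ => B γ = a).card ≤ n ^ 3 := by
    intro a _
    apply fib1 Λ G A α β d n R c r hn hA _ (fun γ hγ γ' hγ' => hsep γ (mem_filter.1 hγ).1 γ'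
      (mem_filter.1 hγ').1) W
    · intro γ hγ
      exact hW γ (mem_filter.1 hγ).1
    · intro γ hγ γ' hγ' τ t i
      rw [mem_filter] at hγ hγ'
      have h1 : B γ t i τ = B γ' t i τ := by rw [hγ.2, hγ'.2]
      exact sub_left_injective h1
  calc V.card ≤ n ^ 3 * (V.image B).card := Finset.card_le_mul_card_image V (n ^ 3) hfib
    _ ≤ _ := Nat.mul_le_mul_left _ hcard

theorem sz_pos (d : ℕ) (z : ℂ) : 0 < sz d z := by
  unfold sz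
  have h : (0 : ℝ) < max 1 ‖z‖ := lt_of_lt_of_le one_pos (le_max_left _ _)
  positivity

theorem t_CNT (hclose : S_CLOSE) : S_CNT := by
  classical
  intro T _ hT Λ hΛ G A α β d n D R c c' r hn hnD hDd hd hG hGd hA hR hc hc' hr
  obtain ⟨ε, K2, hε, hK2, hclose⟩ :=
    hclose T Λ G A α β d n D R c c' r hn hnD hDd hd hG hGd hR hc hc' hr
  obtain ⟨q, hq⟩ : ∃ q : ℕ, 2 / ε < q := exists_nat_gt _
  have hq0 : (0 : ℝ) < q := lt_of_le_of_lt (by positivity) hq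
  obtain ⟨N', hN'⟩ : ∃ N' : ℕ, (q : ℝ) * r < N' := exists_nat_gt _
  obtain ⟨L2, hL2⟩ : ∃ L2 : ℕ, L2 = n ^ 3 * ((hΛ K2).toFinset.card ^ 3) ^ n := ⟨_, rfl⟩
  obtain ⟨L1, hL1⟩ : ∃ L1 : ℕ, L1 = ((((2 * N' + 1) * (2 * N' + 1)) ^ 3) ^ n) ^ Fintype.card T :=
    ⟨_, rfl⟩
  refine ⟨L1 * L2 + 1, by
    have : (0 : ℝ) ≤ L1 * L2 := by positivity
    linarith, ?_⟩
  intro V N κ hsep hV hcell
  have hW : ∀ γ ∈ V, ∃ W, Good Λ G A α β d n R c r γ W := fun γ hγ => (hV γ hγ).2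
  choose! W hW using hW
  let u : (T → ℂ) → T → Fin n → Fin 3 → ℂ := fun γ τ j i => W γ τ j i / ((sz d (γ τ) : ℝ) : ℂ)
  have hu2 : ∀ γ ∈ V, ∀ τ j i, ‖u γ τ j i‖ ≤ r := by
    intro γ hγ τ j i
    show ‖W γ τ j i / ((sz d (γ τ) : ℝ) : ℂ)‖ ≤ r
    rw [norm_div, Complex.norm_real, Real.norm_of_nonneg (sz_pos d (γ τ)).le,
      div_le_iff₀ (sz_pos d (γ τ))]
    exact (hW γ hγ).hi τ j i
  let lab : (T → ℂ) → T → Fin n → Fin 3 → ℤ × ℤ := fun γ τ j i =>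
    (⌊(q : ℝ) * (u γ τ j i).re⌋, ⌊(q : ℝ) * (u γ τ j i).im⌋)
  let A' : (T → ℂ) → ℕ × (T → Fin n → Fin 3 → ℤ × ℤ) := fun γ => (κ γ, lab γ)
  have hfloor : ∀ x : ℝ, |x| ≤ r → ⌊(q : ℝ) * x⌋ ∈ Icc (-(N' : ℤ)) N' := by
    intro x hx
    rw [abs_le] at hx
    rw [mem_Icc]
    constructor
    · rw [Int.le_floor]
      push_cast
      nlinarith [hx.1]
    · have h1 : ((⌊(q : ℝ) * x⌋ : ℤ) : ℝ) ≤ ((N' : ℤ) : ℝ) := by
        refine (Int.floor_le _).trans ?_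
        push_cast
        nlinarith [hx.2]
      exact_mod_cast h1
  have himg : V.image A' ⊆ (range N) ×ˢ
      (Fintype.piFinset fun _ : T => Fintype.piFinset fun _ : Fin n =>
        Fintype.piFinset fun _ : Fin 3 => Icc (-(N' : ℤ)) N' ×ˢ Icc (-(N' : ℤ)) N') := by
    intro x hx
    rw [mem_image] at hx
    obtain ⟨γ, hγ, rfl⟩ := hx
    rw [mem_product, Fintype.mem_piFinset, mem_range]
    refine ⟨(hV γ hγ).1, ?_⟩
    intro τ
    rw [Fintype.mem_piFinset]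
    intro j
    rw [Fintype.mem_piFinset]
    intro i
    rw [mem_product]
    exact ⟨hfloor _ ((Complex.abs_re_le_norm _).trans (hu2 γ hγ τ j i)),
      hfloor _ ((Complex.abs_im_le_norm _).trans (hu2 γ hγ τ j i))⟩
  have hcard : (V.image A').card ≤ N * L1 := by
    have h1 := card_le_card himg
    have hT' : (Fintype.piFinset fun _ : T => Fintype.piFinset fun _ : Fin n =>
        Fintype.piFinset fun _ : Fin 3 => Icc (-(N' : ℤ)) N' ×ˢ Icc (-(N' : ℤ)) N').card =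
        ((((2 * N' + 1) * (2 * N' + 1)) ^ 3) ^ n) ^ Fintype.card T := by
      have e1 : ((N' : ℤ) + 1 - -(N' : ℤ)).toNat = 2 * N' + 1 := by omega
      rw [Fintype.card_piFinset, Finset.prod_const, Fintype.card_piFinset_const,
        Fintype.card_piFinset_const, card_product, Int.card_Icc, e1, Finset.card_univ]
    rw [card_product, hT', card_range, ← hL1] at h1
    exact h1
  have hclo : ∀ γ ∈ V, ∀ γ' ∈ V, A' γ = A' γ' → ∀ (τ : T) (t : Fin n) (i : Fin 3),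
      ‖∏ j, (((t : ℕ) : ℂ) - W γ τ j i) - ∏ j, (((t : ℕ) : ℂ) - W γ' τ j i)‖ ≤ K2 := by
    intro γ hγ γ' hγ' hAA
    have hA1 : κ γ = κ γ' := congrArg Prod.fst hAA
    have hA3 : lab γ = lab γ' := congrArg Prod.snd hAA
    apply hclose γ γ' (W γ) (W γ') (hW γ hγ) (hW γ' hγ') (hcell γ hγ γ' hγ' hA1)
    intro τ j i
    have hl := congrFun (congrFun (congrFun hA3 τ) j) i
    have hl1 : ⌊(q : ℝ) * (u γ τ j i).re⌋ = ⌊(q : ℝ) * (u γ' τ j i).re⌋ := congrArg Prod.fst hl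
    have hl2 : ⌊(q : ℝ) * (u γ τ j i).im⌋ = ⌊(q : ℝ) * (u γ' τ j i).im⌋ := congrArg Prod.snd hl
    have key : ∀ x y : ℝ, ⌊(q : ℝ) * x⌋ = ⌊(q : ℝ) * y⌋ → |x - y| ≤ 1 / q := by
      intro x y hxy
      have h1 := Int.abs_sub_lt_one_of_floor_eq_floor hxy
      rw [← mul_sub, abs_mul, abs_of_pos hq0] at h1
      rw [le_div_iff₀ hq0]
      linarith
    have h1 := key _ _ hl1
    have h2 := key _ _ hl2
    show ‖u γ τ j i - u γ' τ j i‖ ≤ ε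
    refine (Complex.norm_le_abs_re_add_abs_im _).trans ?_
    rw [Complex.sub_re, Complex.sub_im]
    have h3 : 1 / (q : ℝ) + 1 / q ≤ ε := by
      rw [← add_div, div_le_iff₀ hq0]
      rw [div_lt_iff₀ hε] at hq
      linarith
    linarith
  have hfib : ∀ a ∈ V.image A', (V.filter fun γ => A' γ = a).card ≤ L2 := by
    intro a _
    rw [hL2]
    apply fib2 Λ G A α β d n R c r hn hA _ (fun γ hγ γ' hγ' => hsep γ (mem_filter.1 hγ).1 γ'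
      (mem_filter.1 hγ').1) W
    · intro γ hγ
      exact hW γ (mem_filter.1 hγ).1
    · intro γ hγ γ' hγ'
      rw [mem_filter] at hγ hγ'
      exact hclo γ hγ.1 γ' hγ'.1 (hγ.2.trans hγ'.2.symm)
  have hfin := Finset.card_le_mul_card_image V L2 hfib
  have h1 : V.card ≤ L2 * (N * L1) := hfin.trans (Nat.mul_le_mul_left _ hcard)
  have hN0 : (0 : ℝ) ≤ N := Nat.cast_nonneg _
  calc (V.card : ℝ) ≤ ((L2 * (N * L1) : ℕ) : ℝ) := by exact_mod_cast h1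
    _ = L1 * L2 * N := by push_cast; ring
    _ ≤ (L1 * L2 + 1) * N := by nlinarith

end Pool.Agent.J4H48.HB
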