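import Pool.Agent.J4H48.HB.Stm

/-!
The general count `S_RED → S_CNT → S_LAT → S_GEN`, progressions and boxes.
-/

set_option autoImplicit false

open Finset Polynomial NumberField

namespace Pool.Agent.J4H48.HB

theorem emb_eq {K : Type} [Field K] {x y : 𝓞 K} {τ : K →+* ℂ} (h : emb K x τ = emb K y τ) :
    x = y :=
  FaithfulSMul.algebraMap_injective (𝓞 K) K (τ.injective h)

theorem emb_injective (K : Type) [Field K] [NumberField K] : Function.Injective (emb K) := by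
  intro x y h
  obtain ⟨τ⟩ : Nonempty (K →+* ℂ) := inferInstance
  exact emb_eq (congrFun h τ)

theorem t_GEN (hred : S_RED) (hcnt : S_CNT) (hlat : S_LAT) : S_GEN := by
  classical
  intro K _ _ F b e B hd hb hB hBd c' hc'
  obtain ⟨R, c, r, hR, hc, hr, G, A, α, β, hG, hGd, hA, hred⟩ := hred K F b e B hd hb
  have hex : ∀ n : ℕ, ∃ L : ℝ, 1 ≤ L ∧ (1 ≤ n → n ≤ B →
      ∀ (V : Finset ((K →+* ℂ) → ℂ)) (N : ℕ) (κ : ((K →+* ℂ) → ℂ) → ℕ),
        (∀ γ ∈ V, ∀ γ' ∈ V, ∀ τ, γ τ = γ' τ → γ = γ') →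
        (∀ γ ∈ V, κ γ < N ∧ ∃ W, Good (lat K) G A α β F.natDegree n R c r γ W) →
        (∀ γ ∈ V, ∀ γ' ∈ V, κ γ = κ γ' → ∀ τ,
          ‖γ τ - γ' τ‖ ≤ c' * (max 1 (max ‖γ τ‖ ‖γ' τ‖)) ^ (1 - (B : ℝ) / F.natDegree)) →
        (V.card : ℝ) ≤ L * N) := by
    intro n
    by_cases h : 1 ≤ n ∧ n ≤ B
    · obtain ⟨L, h1, h2⟩ := hcnt (K →+* ℂ) (lat K) (hlat K) G A α β F.natDegree n B R c c' r
        h.1 h.2 hBd hd hG hGd hA hR hc hc' hr
      exact ⟨L, h1, fun _ _ => h2⟩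
    · exact ⟨1, le_rfl, fun h1 h2 => absurd ⟨h1, h2⟩ h⟩
  choose L hL hcount using hex
  have hLs : 0 ≤ ∑ n ∈ Icc 1 B, L n := Finset.sum_nonneg fun i _ => by linarith [hL i]
  refine ⟨1 + ∑ n ∈ Icc 1 B, L n, by linarith, ?_⟩
  intro V N κ hV hcell
  let κ' : ((K →+* ℂ) → ℂ) → ℕ := fun γ => if h : ∃ x, emb K x = γ then κ h.choose else 0
  have hκ' : ∀ x, κ' (emb K x) = κ x := by
    intro x
    have h : ∃ y, emb K y = emb K x := ⟨x, rfl⟩
    show (if h : ∃ y, emb K y = emb K x then κ h.choose else 0) = κ x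
    rw [dif_pos h, emb_injective K h.choose_spec]
  let P : ℕ → 𝓞 K → Prop := fun n x => ∃ W, Good (lat K) G A α β F.natDegree n R c r (emb K x) W
  have hcov : V ⊆ (Icc 1 B).biUnion fun n => V.filter (P n) := by
    intro x hx
    obtain ⟨n, h1, h2, h3⟩ := hred x (hV x hx).2
    rw [mem_biUnion]
    exact ⟨n, mem_Icc.2 ⟨h1, h2⟩, mem_filter.2 ⟨hx, h3⟩⟩
  have hone : ∀ n ∈ Icc 1 B, ((V.filter (P n)).card : ℝ) ≤ L n * N := by
    intro n hn
    have h1 := hcount n (mem_Icc.1 hn).1 (mem_Icc.1 hn).2 ((V.filter (P n)).image (emb K)) N κ' (by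
        intro γ hγ γ' hγ' τ h
        rw [mem_image] at hγ hγ'
        obtain ⟨x, _, rfl⟩ := hγ
        obtain ⟨y, _, rfl⟩ := hγ'
        rw [emb_eq h]) (by
        intro γ hγ
        rw [mem_image] at hγ
        obtain ⟨x, hx, rfl⟩ := hγ
        rw [mem_filter] at hx
        rw [hκ']
        exact ⟨(hV x hx.1).1, hx.2⟩) (by
        intro γ hγ γ' hγ' h τ
        rw [mem_image] at hγ hγ'
        obtain ⟨x, hx, rfl⟩ := hγ
        obtain ⟨y, hy, rfl⟩ := hγ'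
        rw [mem_filter] at hx hy
        rw [hκ', hκ'] at h
        exact hcell x hx.1 y hy.1 h τ)
    rwa [Finset.card_image_of_injective _ (emb_injective K)] at h1
  have h1 : (V.card : ℝ) ≤ ∑ n ∈ Icc 1 B, ((V.filter (P n)).card : ℝ) := by
    have h2 : V.card ≤ ∑ n ∈ Icc 1 B, (V.filter (P n)).card :=
      (card_le_card hcov).trans card_biUnion_le
    exact_mod_cast h2
  have hN : (0 : ℝ) ≤ N := Nat.cast_nonneg _
  calc (V.card : ℝ) ≤ ∑ n ∈ Icc 1 B, ((V.filter (P n)).card : ℝ) := h1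
    _ ≤ ∑ n ∈ Icc 1 B, L n * N := Finset.sum_le_sum hone
    _ = (∑ n ∈ Icc 1 B, L n) * N := by rw [Finset.sum_mul]
    _ ≤ (1 + ∑ n ∈ Icc 1 B, L n) * N := mul_le_mul_of_nonneg_right (by linarith) hN

theorem t_MAIN1 (hgen : S_GEN) (hline : S_LINE) : S_MAIN1 := by
  classical
  intro K _ _ F b e B hd hb hB hBd w hw
  have hd0 : (0 : ℝ) < F.natDegree := by exact_mod_cast (by omega : 0 < F.natDegree)
  have hθ0 : 0 < (B : ℝ) / F.natDegree := by
    have : (0 : ℝ) < B := by exact_mod_cast hB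
    positivity
  have hθ1 : (B : ℝ) / F.natDegree < 1 := by
    rw [div_lt_one hd0]
    exact_mod_cast hBd
  obtain ⟨c', hc', hline⟩ := hline K _ hθ0 hθ1 w
  obtain ⟨C', hC', hgen⟩ := hgen K F b e B hd hb hB hBd c' (by linarith)
  refine ⟨C' * c', by nlinarith, ?_⟩
  intro x₀ m hm
  obtain ⟨N, κ, hN, hκN, hκ⟩ := hline x₀ m hm
  have hfin : {s : ℤ | 0 ≤ s ∧ s < m ∧ HasPer K (F + C (x₀ + s • w)) b e B}.Finite :=
    (Set.finite_Ico 0 (m : ℤ)).subset (fun _ ht => ⟨ht.1, ht.2.1⟩)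
  rw [Set.ncard_eq_toFinset_card _ hfin]
  obtain ⟨U, hU⟩ : ∃ U, U = hfin.toFinset := ⟨_, rfl⟩
  rw [← hU]
  have hUmem : ∀ s ∈ U, 0 ≤ s ∧ s < m ∧ HasPer K (F + C (x₀ + s • w)) b e B := by
    intro s hs
    rw [hU, Set.Finite.mem_toFinset] at hs
    exact hs
  have hinj : Function.Injective fun s : ℤ => x₀ + s • w := by
    intro s s' h
    have h1 : s • w = s' • w := add_left_cancel h
    rw [← sub_eq_zero, ← sub_smul, smul_eq_zero] at h1
    rcases h1 with h1 | h1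
    · omega
    · exact absurd h1 hw
  let κ' : 𝓞 K → ℕ := fun x => if h : ∃ s : ℤ, x₀ + s • w = x then κ h.choose else 0
  have hκ' : ∀ s : ℤ, κ' (x₀ + s • w) = κ s := by
    intro s
    have h : ∃ t : ℤ, x₀ + t • w = x₀ + s • w := ⟨s, rfl⟩
    show (if h : ∃ t : ℤ, x₀ + t • w = x₀ + s • w then κ h.choose else 0) = κ s
    rw [dif_pos h, hinj h.choose_spec]
  have h1 := hgen (U.image fun s : ℤ => x₀ + s • w) N κ' (by
      intro x hx
      rw [mem_image] at hx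
      obtain ⟨s, hs, rfl⟩ := hx
      rw [hκ']
      exact ⟨hκN s (hUmem s hs).1 (hUmem s hs).2.1, (hUmem s hs).2.2⟩) (by
      intro x hx y hy h τ
      rw [mem_image] at hx hy
      obtain ⟨s, hs, rfl⟩ := hx
      obtain ⟨t, ht, rfl⟩ := hy
      rw [hκ', hκ'] at h
      exact hκ s t (hUmem s hs).1 (hUmem s hs).2.1 (hUmem t ht).1 (hUmem t ht).2.1 h τ)
  rw [Finset.card_image_of_injective _ hinj] at h1
  calc (U.card : ℝ) ≤ C' * N := h1
    _ ≤ C' * (c' * (m : ℝ) ^ ((B : ℝ) / F.natDegree)) :=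
        mul_le_mul_of_nonneg_left hN (by linarith)
    _ = _ := by ring

/-- a box is finite -/
theorem box_finite {K : Type} [Field K] [NumberField K] {ι : Type} [Fintype ι]
    (ω : Module.Basis ι ℤ (𝓞 K)) (a : ι → ℤ) (m : ℕ) : (Box ω a m).Finite := by
  have h1 : (Set.pi Set.univ fun i => Set.Ico (a i) (a i + m)).Finite :=
    Set.Finite.pi fun i => Set.finite_Ico _ _
  refine (h1.preimage (f := fun x : 𝓞 K => fun i => ω.repr x i) ?_).subset ?_
  · intro x _ y _ h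
    exact ω.repr.injective (Finsupp.ext fun i => congrFun h i)
  · intro x hx
    rw [Set.mem_preimage, Set.mem_univ_pi]
    exact fun i => ⟨(hx i).1, (hx i).2⟩

theorem t_MAIN2 (hgen : S_GEN) (hbox : S_BOX) : S_MAIN2 := by
  classical
  intro K _ _ F b e B hd hb hB hBd ι _ ω
  have hd0 : (0 : ℝ) < F.natDegree := by exact_mod_cast (by omega : 0 < F.natDegree)
  have hθ0 : 0 < (B : ℝ) / F.natDegree := by
    have : (0 : ℝ) < B := by exact_mod_cast hB
    positivity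
  have hθ1 : (B : ℝ) / F.natDegree < 1 := by
    rw [div_lt_one hd0]
    exact_mod_cast hBd
  obtain ⟨c', hc', hbox⟩ := hbox K _ hθ0 hθ1 ι ω
  obtain ⟨C', hC', hgen⟩ := hgen K F b e B hd hb hB hBd c' (by linarith)
  refine ⟨C' * c', by nlinarith, ?_⟩
  intro a m hm
  obtain ⟨N, κ, hN, hκN, hκ⟩ := hbox a m hm
  have hfin : {x : 𝓞 K | x ∈ Box ω a m ∧ HasPer K (F + C x) b e B}.Finite :=
    (box_finite ω a m).subset (fun _ ht => ht.1)
  rw [Set.ncard_eq_toFinset_card _ hfin]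
  have h1 := hgen hfin.toFinset N κ (by
      intro x hx
      rw [Set.Finite.mem_toFinset] at hx
      exact ⟨hκN x hx.1, hx.2⟩) (by
      intro x hx y hy h τ
      rw [Set.Finite.mem_toFinset] at hx hy
      exact hκ x hx.1 y hy.1 h τ)
  calc (hfin.toFinset.card : ℝ) ≤ C' * N := h1
    _ ≤ C' * (c' * (m : ℝ) ^ (Module.finrank ℚ K * ((B : ℝ) / F.natDegree))) :=
        mul_le_mul_of_nonneg_left hN (by linarith)
    _ = _ := by ring

end Pool.Agent.J4H48.HB
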