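import Pool.Agent.J4H48.HB.Gen
import Pool.Agent.J4H48.HK.Prob

/-!
Random constants in boxes: the Borel-Cantelli version of `S_MAIN2`.
-/

set_option autoImplicit false

open Polynomial NumberField MeasureTheory Filter

namespace Pool.Agent.J4H48.HB

/-- the noise `ξ` takes values in the box of side `m` with corner `a`, each value with probability at
most `κ / m ^ [K : ℚ]` -/
def Noise {K : Type} [Field K] [NumberField K] {ι : Type} (ω : Module.Basis ι ℤ (𝓞 K)) {Ω : Type*}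
    [MeasurableSpace Ω] (μ : Measure Ω) (ξ : Ω → 𝓞 K) (a : ι → ℤ) (m : ℕ) (κ : ℝ) : Prop :=
  (∀ᵐ t ∂μ, ξ t ∈ Box ω a m) ∧
    ∀ x : 𝓞 K, μ {t | ξ t = x} ≤ ENNReal.ofReal (κ / (m : ℝ) ^ Module.finrank ℚ K)

theorem prob {K : Type} [Field K] [NumberField K] {ι : Type} [Fintype ι]
    (ω : Module.Basis ι ℤ (𝓞 K)) {Ω : Type*} [MeasurableSpace Ω] (μ : Measure Ω)
    (P : 𝓞 K → Prop) (ξ : Ω → 𝓞 K) (a : ι → ℤ) (m : ℕ) (κ N : ℝ) (hκ : 0 ≤ κ)
    (hξ : Noise ω μ ξ a m κ) (hN : (({x : 𝓞 K | x ∈ Box ω a m ∧ P x}.ncard : ℕ) : ℝ) ≤ N) :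
    μ {t | P (ξ t)} ≤ ENNReal.ofReal (N * (κ / (m : ℝ) ^ Module.finrank ℚ K)) := by
  classical
  have hfin : {x : 𝓞 K | x ∈ Box ω a m ∧ P x}.Finite :=
    (box_finite ω a m).subset (fun _ ht => ht.1)
  rw [Set.ncard_eq_toFinset_card _ hfin] at hN
  set V := hfin.toFinset with hV
  have h1 : μ {t | P (ξ t)} ≤ μ (⋃ x ∈ V, {t | ξ t = x}) := by
    apply measure_mono_ae
    filter_upwards [hξ.1] with t ht hL
    have hL' : P (ξ t) := hL
    have : ξ t ∈ V := by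
      rw [hV, Set.Finite.mem_toFinset]
      exact ⟨ht, hL'⟩
    show t ∈ ⋃ x ∈ V, {t | ξ t = x}
    simp only [Set.mem_iUnion, Set.mem_ofPred_eq, exists_prop]
    exact ⟨ξ t, this, rfl⟩
  refine h1.trans ((measure_biUnion_finset_le _ _).trans ?_)
  calc ∑ x ∈ V, μ {t | ξ t = x}
      ≤ ∑ _x ∈ V, ENNReal.ofReal (κ / (m : ℝ) ^ Module.finrank ℚ K) :=
        Finset.sum_le_sum fun x _ => hξ.2 x
    _ = ENNReal.ofReal (V.card * (κ / (m : ℝ) ^ Module.finrank ℚ K)) := by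
        rw [Finset.sum_const, nsmul_eq_mul, ENNReal.ofReal_mul (Nat.cast_nonneg _),
          ENNReal.ofReal_natCast]
    _ ≤ _ := by
        apply ENNReal.ofReal_le_ofReal
        exact mul_le_mul_of_nonneg_right hN (by positivity)

theorem t_AS (hmain : S_MAIN2) (K : Type) [Field K] [NumberField K] {ι : Type} [Fintype ι]
    (ω : Module.Basis ι ℤ (𝓞 K)) {Ω : Type*} [MeasurableSpace Ω] (μ : Measure Ω)
    (ξ : ℕ → Ω → 𝓞 K) (a : ℕ → ι → ℤ) (m : ℕ → ℕ) (κ : ℝ) (d₀ : ℕ)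
    (hm : ∀ n, 1 ≤ m n) (hκ : 0 ≤ κ) (hξ : ∀ n, Noise ω μ (ξ n) (a n) (m n) κ)
    (hs : Summable fun n => (m n : ℝ) ^ (-((Module.finrank ℚ K : ℝ) / d₀))) :
    ∀ᵐ t ∂μ, ∀ (F : (𝓞 K)[X]) (b e : 𝓞 K), 2 ≤ F.natDegree → F.natDegree ≤ d₀ → b ≠ 0 →
      ∀ᶠ n in atTop, ¬ HasPer K (F + C (ξ n t)) b e (F.natDegree - 1) := by
  obtain ⟨hc1, hc2⟩ := Pool.Agent.J4H48.HK.countable_poly K
  rw [ae_all_iff]
  intro F
  rw [ae_all_iff]
  intro b
  rw [ae_all_iff]
  intro e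
  by_cases hF : 2 ≤ F.natDegree ∧ F.natDegree ≤ d₀ ∧ b ≠ 0
  · obtain ⟨hF1, hF2, hb⟩ := hF
    obtain ⟨C', hC, hcount⟩ :=
      hmain K F b e (F.natDegree - 1) hF1 hb (by omega) (by omega) ι ω
    have hd0 : (0 : ℝ) < F.natDegree := by exact_mod_cast (by omega : 0 < F.natDegree)
    obtain ⟨k, hk⟩ : ∃ k : ℕ, k = Module.finrank ℚ K := ⟨_, rfl⟩
    have key : ∀ᵐ t ∂μ, ∀ᶠ n in atTop,
        t ∉ {t | HasPer K (F + C (ξ n t)) b e (F.natDegree - 1)} := by
      apply ae_eventually_notMem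
      refine ne_top_of_le_ne_top ?_ (ENNReal.tsum_le_tsum fun n =>
        prob ω μ (fun x => HasPer K (F + C x) b e (F.natDegree - 1)) (ξ n) (a n) (m n) κ _ hκ
          (hξ n) (hcount (a n) (m n) (hm n)))
      rw [← hk] at hs ⊢
      have hle : ∀ n, ENNReal.ofReal (C' * (m n : ℝ) ^
          ((k : ℝ) * (((F.natDegree - 1 : ℕ) : ℝ) / F.natDegree)) * (κ / (m n : ℝ) ^ k)) ≤
          ENNReal.ofReal (C' * κ * (m n : ℝ) ^ (-((k : ℝ) / d₀))) := by
        intro n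
        apply ENNReal.ofReal_le_ofReal
        have hm1 : (1 : ℝ) ≤ m n := by exact_mod_cast hm n
        have hm0 : (0 : ℝ) < m n := by linarith
        have e1 : (m n : ℝ) ^ ((k : ℝ) * (((F.natDegree - 1 : ℕ) : ℝ) / F.natDegree)) /
            (m n : ℝ) ^ k = (m n : ℝ) ^ (-((k : ℝ) / F.natDegree)) := by
          rw [← Real.rpow_natCast (m n : ℝ) k, ← Real.rpow_sub hm0]
          congr 1
          rw [Nat.cast_sub (by omega), Nat.cast_one]
          field_simp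
          ring
        have h2 : (m n : ℝ) ^ (-((k : ℝ) / F.natDegree)) ≤ (m n : ℝ) ^ (-((k : ℝ) / d₀)) := by
          apply Real.rpow_le_rpow_of_exponent_le hm1
          have h3 : (k : ℝ) / d₀ ≤ (k : ℝ) / F.natDegree :=
            div_le_div_of_nonneg_left (Nat.cast_nonneg _) hd0 (by exact_mod_cast hF2)
          linarith
        calc C' * (m n : ℝ) ^ ((k : ℝ) * (((F.natDegree - 1 : ℕ) : ℝ) / F.natDegree)) *
              (κ / (m n : ℝ) ^ k)
            = C' * κ * ((m n : ℝ) ^ ((k : ℝ) * (((F.natDegree - 1 : ℕ) : ℝ) / F.natDegree)) /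
              (m n : ℝ) ^ k) := by ring
          _ = C' * κ * (m n : ℝ) ^ (-((k : ℝ) / F.natDegree)) := by rw [e1]
          _ ≤ C' * κ * (m n : ℝ) ^ (-((k : ℝ) / d₀)) :=
              mul_le_mul_of_nonneg_left h2 (by positivity)
      refine ne_top_of_le_ne_top ?_ (ENNReal.tsum_le_tsum hle)
      rw [← ENNReal.ofReal_tsum_of_nonneg _ (hs.mul_left _)]
      · exact ENNReal.ofReal_ne_top
      · intro n
        positivity
    filter_upwards [key] with t ht _ _ _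
    exact ht
  · exact Eventually.of_forall fun t h1 h2 h3 => absurd ⟨h1, h2, h3⟩ hF

/-- random members of progressions in arbitrary positions -/
theorem t_AS1 (hmain : S_MAIN1) (K : Type) [Field K] [NumberField K] (w : 𝓞 K) (hw : w ≠ 0)
    {Ω : Type*} [MeasurableSpace Ω] (μ : Measure Ω) (ξ : ℕ → Ω → ℤ) (x : ℕ → 𝓞 K) (m : ℕ → ℕ)
    (κ : ℝ) (d₀ : ℕ) (hm : ∀ n, 1 ≤ m n) (hκ : 0 ≤ κ)
    (hξ : ∀ n, Pool.Agent.J4H48.HK.Noise μ (ξ n) 0 (m n) κ)
    (hs : Summable fun n => (m n : ℝ) ^ (-(1 / (d₀ : ℝ)))) :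
    ∀ᵐ t ∂μ, ∀ (F : (𝓞 K)[X]) (b e : 𝓞 K), 2 ≤ F.natDegree → F.natDegree ≤ d₀ → b ≠ 0 →
      ∀ᶠ n in atTop, ¬ HasPer K (F + C (x n + ξ n t • w)) b e (F.natDegree - 1) := by
  obtain ⟨hc1, hc2⟩ := Pool.Agent.J4H48.HK.countable_poly K
  rw [ae_all_iff]
  intro F
  rw [ae_all_iff]
  intro b
  rw [ae_all_iff]
  intro e
  by_cases hF : 2 ≤ F.natDegree ∧ F.natDegree ≤ d₀ ∧ b ≠ 0
  · obtain ⟨hF1, hF2, hb⟩ := hF
    obtain ⟨C', hC, hcount⟩ :=
      hmain K F b e (F.natDegree - 1) hF1 hb (by omega) (by omega) w hw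
    have hd0 : (0 : ℝ) < F.natDegree := by exact_mod_cast (by omega : 0 < F.natDegree)
    have key : ∀ᵐ t ∂μ, ∀ᶠ n in atTop,
        t ∉ {t | HasPer K (F + C (x n + ξ n t • w)) b e (F.natDegree - 1)} := by
      apply ae_eventually_notMem
      refine ne_top_of_le_ne_top ?_ (ENNReal.tsum_le_tsum fun n =>
        Pool.Agent.J4H48.HK.prob μ
          (fun s : ℤ => HasPer K (F + C (x n + s • w)) b e (F.natDegree - 1)) (ξ n) 0 (m n) κ
          (C' * (m n : ℝ) ^ (((F.natDegree - 1 : ℕ) : ℝ) / F.natDegree)) hκ (hξ n) (by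
            have h := hcount (x n) (m n) (hm n)
            rw [zero_add]
            exact h))
      have hle : ∀ n, ENNReal.ofReal (C' * (m n : ℝ) ^
          (((F.natDegree - 1 : ℕ) : ℝ) / F.natDegree) * (κ / m n)) ≤
          ENNReal.ofReal (C' * κ * (m n : ℝ) ^ (-(1 / (d₀ : ℝ)))) := by
        intro n
        apply ENNReal.ofReal_le_ofReal
        have hm1 : (1 : ℝ) ≤ m n := by exact_mod_cast hm n
        have hm0 : (0 : ℝ) < m n := by linarith
        have e1 : (m n : ℝ) ^ (((F.natDegree - 1 : ℕ) : ℝ) / F.natDegree) / m n =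
            (m n : ℝ) ^ (-(1 / (F.natDegree : ℝ))) := by
          have e2 : (m n : ℝ) ^ (((F.natDegree - 1 : ℕ) : ℝ) / F.natDegree) / m n =
              (m n : ℝ) ^ (((F.natDegree - 1 : ℕ) : ℝ) / F.natDegree - 1) := by
            rw [Real.rpow_sub hm0, Real.rpow_one]
          rw [e2]
          congr 1
          rw [Nat.cast_sub (by omega), Nat.cast_one]
          field_simp
          ring
        have h2 : (m n : ℝ) ^ (-(1 / (F.natDegree : ℝ))) ≤ (m n : ℝ) ^ (-(1 / (d₀ : ℝ))) := by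
          apply Real.rpow_le_rpow_of_exponent_le hm1
          have h3 : 1 / (d₀ : ℝ) ≤ 1 / (F.natDegree : ℝ) :=
            one_div_le_one_div_of_le hd0 (by exact_mod_cast hF2)
          linarith
        calc C' * (m n : ℝ) ^ (((F.natDegree - 1 : ℕ) : ℝ) / F.natDegree) * (κ / m n)
            = C' * κ * ((m n : ℝ) ^ (((F.natDegree - 1 : ℕ) : ℝ) / F.natDegree) / m n) := by ring
          _ = C' * κ * (m n : ℝ) ^ (-(1 / (F.natDegree : ℝ))) := by rw [e1]
          _ ≤ C' * κ * (m n : ℝ) ^ (-(1 / (d₀ : ℝ))) :=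
              mul_le_mul_of_nonneg_left h2 (by positivity)
      refine ne_top_of_le_ne_top ?_ (ENNReal.tsum_le_tsum hle)
      rw [← ENNReal.ofReal_tsum_of_nonneg _ (hs.mul_left _)]
      · exact ENNReal.ofReal_ne_top
      · intro n
        positivity
    filter_upwards [key] with t ht _ _ _
    exact ht
  · exact Eventually.of_forall fun t h1 h2 h3 => absurd ⟨h1, h2, h3⟩ hF

end Pool.Agent.J4H48.HB
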