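import Mathlib

/-!
Project HB: constants in boxes and progressions of the ring of integers (statements).
Extends project HK (`Pool.Agent.J4H48.HK.Stm`).
-/

set_option autoImplicit false

open Polynomial NumberField

namespace Pool.Agent.J4H48.HB

/-- the size of the members of a cycle for the constant `z` -/
noncomputable def sz (d : ℕ) (z : ℂ) : ℝ := (max 1 ‖z‖) ^ (1 / (d : ℝ))

/-- as `HK.S_SIZE`, for all complex `γ`; the lower bound only for large `γ` -/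
def S_SIZE : Prop := ∀ (G : ℂ[X]) (d : ℕ), 2 ≤ d → G.Monic → G.natDegree = d →
  ∀ μ : ℂ, μ ≠ 0 → ∀ A : ℝ, 0 ≤ A → ∃ R r : ℝ, 1 ≤ R ∧ 1 ≤ r ∧
  ∀ (γ : ℂ) (W : Finset ℂ),
    (∀ w ∈ W, ∃ u ∈ W, ∃ v ∈ W, ‖G.eval w + μ * γ‖ ≤ A * max ‖u‖ ‖v‖) →
    ∀ w ∈ W, (R ≤ ‖γ‖ → 1 / r * sz d γ ≤ ‖w‖) ∧ ‖w‖ ≤ r * sz d γ ∧
      ‖G.eval w + μ * γ‖ ≤ A * r * sz d γ

/-- as `HK.Good`, with a complex constant `γ τ` for each embedding -/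
structure Good {T : Type} (Λ : AddSubgroup (T → ℂ)) (G : T → ℂ[X]) (A α β : T → ℂ) (d n : ℕ)
    (R c r : ℝ) (γ : T → ℂ) (W : T → Fin n → Fin 3 → ℂ) : Prop where
  lo : ∀ τ j i, R ≤ ‖γ τ‖ → 1 / r * sz d (γ τ) ≤ ‖W τ j i‖
  hi : ∀ τ j i, ‖W τ j i‖ ≤ r * sz d (γ τ)
  near : ∀ τ j i, ‖(G τ).eval (W τ j i) + A τ * γ τ‖ ≤ c * sz d (γ τ)
  int : ∀ (t : ℤ) (i : Fin 3), (fun τ => ∏ j, ((t : ℂ) - W τ j i)) ∈ Λ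
  rel : ∀ τ j, (G τ).eval (W τ j 1) + A τ * γ τ = α τ * W τ j 2 + β τ * W τ j 0

/-- as `HK.S_PAIR` (proved: `Pool.Agent.J4H48.HK.t_PAIR`) -/
def S_PAIR : Prop := ∀ (G : ℂ[X]) (d : ℕ), 2 ≤ d → G.Monic → G.natDegree = d →
  ∀ r : ℝ, 1 ≤ r → ∃ ε R K : ℝ, 0 < ε ∧ 1 ≤ R ∧ 1 ≤ K ∧
  ∀ (g g' : ℝ) (u u' : ℂ), R ≤ g → R ≤ g' →
    1 / r ≤ ‖u‖ → ‖u‖ ≤ r → 1 / r ≤ ‖u'‖ → ‖u'‖ ≤ r → ‖u - u'‖ ≤ ε →
    ‖(g : ℂ) * u - (g' : ℂ) * u'‖ * (max g g') ^ (d - 1) ≤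
      K * ‖G.eval ((g : ℂ) * u) - G.eval ((g' : ℂ) * u')‖

/-- as `HK.S_CLOSE`. For each `τ`: if `max ‖γ τ‖ ‖γ' τ‖` is at most a large constant, everything is
bounded; otherwise `‖γ τ - γ' τ‖ ≤ max / 2`, so that both are large, and the old proof applies. -/
def S_CLOSE : Prop := ∀ (T : Type) [Fintype T] (Λ : AddSubgroup (T → ℂ)) (G : T → ℂ[X])
  (A α β : T → ℂ) (d n D : ℕ) (R c c' r : ℝ), 1 ≤ n → n ≤ D → D < d → 2 ≤ d →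
  (∀ τ, (G τ).Monic) → (∀ τ, (G τ).natDegree = d) → 1 ≤ R → 0 ≤ c → 0 ≤ c' → 1 ≤ r →
  ∃ ε K : ℝ, 0 < ε ∧ 1 ≤ K ∧ ∀ (γ γ' : T → ℂ) (W W' : T → Fin n → Fin 3 → ℂ),
    Good Λ G A α β d n R c r γ W → Good Λ G A α β d n R c r γ' W' →
    (∀ τ, ‖γ τ - γ' τ‖ ≤ c' * (max 1 (max ‖γ τ‖ ‖γ' τ‖)) ^ (1 - (D : ℝ) / d)) →
    (∀ τ j i, ‖W τ j i / ((sz d (γ τ) : ℝ) : ℂ) - W' τ j i / ((sz d (γ' τ) : ℝ) : ℂ)‖ ≤ ε) →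
    ∀ (τ : T) (t : Fin n) (i : Fin 3),
      ‖∏ j, (((t : ℕ) : ℂ) - W τ j i) - ∏ j, (((t : ℕ) : ℂ) - W' τ j i)‖ ≤ K

/-- the pigeonhole for a given cell function `κ` (as `HK.S_CNT`) -/
def S_CNT : Prop := ∀ (T : Type) [Fintype T] [Nonempty T] (Λ : AddSubgroup (T → ℂ)),
  (∀ R : ℝ, {x : T → ℂ | x ∈ Λ ∧ ∀ τ, ‖x τ‖ ≤ R}.Finite) →
  ∀ (G : T → ℂ[X]) (A α β : T → ℂ) (d n D : ℕ) (R c c' r : ℝ), 1 ≤ n → n ≤ D → D < d →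
  2 ≤ d → (∀ τ, (G τ).Monic) → (∀ τ, (G τ).natDegree = d) → (∀ τ, A τ ≠ 0) → 1 ≤ R →
  0 ≤ c → 0 ≤ c' → 1 ≤ r → ∃ K : ℝ, 1 ≤ K ∧
  ∀ (V : Finset (T → ℂ)) (N : ℕ) (κ : (T → ℂ) → ℕ),
    (∀ γ ∈ V, ∀ γ' ∈ V, ∀ τ, γ τ = γ' τ → γ = γ') →
    (∀ γ ∈ V, κ γ < N ∧ ∃ W, Good Λ G A α β d n R c r γ W) →
    (∀ γ ∈ V, ∀ γ' ∈ V, κ γ = κ γ' → ∀ τ,
      ‖γ τ - γ' τ‖ ≤ c' * (max 1 (max ‖γ τ‖ ‖γ' τ‖)) ^ (1 - (D : ℝ) / d)) →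
    (V.card : ℝ) ≤ K * N

/-- the embeddings of an integer of `K` -/
noncomputable def emb (K : Type) [Field K] (x : 𝓞 K) : (K →+* ℂ) → ℂ :=
  fun τ => τ (algebraMap (𝓞 K) K x)

/-- the vectors of the embeddings of the integers of `K` -/
def lat (K : Type) [Field K] : AddSubgroup ((K →+* ℂ) → ℂ) where
  carrier := {v | ∃ x : 𝓞 K, ∀ τ : K →+* ℂ, v τ = τ (algebraMap (𝓞 K) K x)}
  zero_mem' := ⟨0, fun τ => by simp⟩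
  add_mem' := by
    rintro v w ⟨x, hx⟩ ⟨y, hy⟩
    exact ⟨x + y, fun τ => by simp [hx τ, hy τ]⟩
  neg_mem' := by
    rintro v ⟨x, hx⟩
    exact ⟨-x, fun τ => by simp [hx τ]⟩

/-- the Hénon map `(x, y) ↦ (y, (F(y) - e x) / b)` over the algebraic closure of `K` -/
noncomputable def henon (K : Type) [Field K] (F : (𝓞 K)[X]) (b e : 𝓞 K)
    (P : AlgebraicClosure K × AlgebraicClosure K) : AlgebraicClosure K × AlgebraicClosure K :=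
  (P.2, (aeval P.2 (F.map (algebraMap (𝓞 K) K)) -
    algebraMap K (AlgebraicClosure K) (algebraMap (𝓞 K) K e) * P.1) /
      algebraMap K (AlgebraicClosure K) (algebraMap (𝓞 K) K b))

/-- it has a periodic point `P` with `[K(P) : K] ≤ B` -/
def HasPer (K : Type) [Field K] (F : (𝓞 K)[X]) (b e : 𝓞 K) (B : ℕ) : Prop :=
  ∃ L : IntermediateField K (AlgebraicClosure K), FiniteDimensional K L ∧
    Module.finrank K L ≤ B ∧ ∃ P : AlgebraicClosure K × AlgebraicClosure K,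
      P.1 ∈ L ∧ P.2 ∈ L ∧ ∃ n : ℕ, 1 ≤ n ∧ (henon K F b e)^[n] P = P

/-- integrality, as `HK.S_INT` -/
def S_INT : Prop := ∀ (L : Type) [Field L] [NumberField L] (G : L[X]), G.Monic →
  2 ≤ G.natDegree → (∀ i, IsIntegral ℤ (G.coeff i)) → ∀ α β γ : L, IsIntegral ℤ α →
    IsIntegral ℤ β → IsIntegral ℤ γ → ∀ W : Finset L,
    (∀ w ∈ W, ∃ u ∈ W, ∃ v ∈ W, G.eval w + γ = α * u + β * v) → ∀ w ∈ W, IsIntegral ℤ w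

/-- relative norms, as `HK.S_NORM` -/
def S_NORM : Prop := ∀ (K L : Type) [Field K] [NumberField K] [Field L] [Algebra K L]
  [FiniteDimensional K L], ∃ σ : (K →+* ℂ) → Fin (Module.finrank K L) → (L →+* ℂ),
    (∀ τ j (x : K), σ τ j (algebraMap K L x) = τ x) ∧
    ∀ x : L, IsIntegral ℤ x → ∀ t : ℤ, ∃ N : 𝓞 K, ∀ τ : K →+* ℂ,
      ∏ j, ((t : ℂ) - σ τ j x) = τ (algebraMap (𝓞 K) K N)

/-- as `HK.S_RED`: uniformly in the constant `x`, an arbitrary integer of `K` -/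
def S_RED : Prop := ∀ (K : Type) [Field K] [NumberField K] (F : (𝓞 K)[X]) (b e : 𝓞 K) (B : ℕ),
  2 ≤ F.natDegree → b ≠ 0 → ∃ R c r : ℝ, 1 ≤ R ∧ 0 ≤ c ∧ 1 ≤ r ∧
  ∃ (G : (K →+* ℂ) → ℂ[X]) (A α β : (K →+* ℂ) → ℂ), (∀ τ, (G τ).Monic) ∧
    (∀ τ, (G τ).natDegree = F.natDegree) ∧ (∀ τ, A τ ≠ 0) ∧
    ∀ x : 𝓞 K, HasPer K (F + C x) b e B →
      ∃ n : ℕ, 1 ≤ n ∧ n ≤ B ∧ ∃ W, Good (lat K) G A α β F.natDegree n R c r (emb K x) W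

/-- finiteness, as `HK.S_LAT` -/
def S_LAT : Prop := ∀ (K : Type) [Field K] [NumberField K] (R : ℝ),
  {x : (K →+* ℂ) → ℂ | x ∈ lat K ∧ ∀ τ, ‖x τ‖ ≤ R}.Finite

/-- monotone cells on a real interval: `⌊dist(x, the end next to 0) ^ θ⌋` on each side of `0`, put in
increasing order (the Bernoulli inequality is `Pool.Agent.J4H79.HK.t_CELL`) -/
def S_MCELL : Prop := ∀ θ : ℝ, 0 < θ → θ < 1 → ∃ K : ℝ, 1 ≤ K ∧ ∀ a l : ℝ, 1 ≤ l →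
  ∃ κ : ℝ → ℕ, (∀ x, a ≤ x → x ≤ a + l → (κ x : ℝ) ≤ K * l ^ θ) ∧
    (∀ x y, a ≤ x → x ≤ y → y ≤ a + l → κ x ≤ κ y) ∧
    ∀ x y, a ≤ x → x ≤ a + l → a ≤ y → y ≤ a + l → κ x = κ y →
      |x - y| ≤ K * (max |x| |y|) ^ (1 - θ)

/-- `[K : ℚ]` real coordinates: real and imaginary parts of one embedding for each infinite place
(`NumberField.mixedEmbedding`, its index type has `finrank ℚ K` elements) -/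
def S_GRID : Prop := ∀ (K : Type) [Field K] [NumberField K],
  ∃ x : Fin (Module.finrank ℚ K) → (K →+ ℝ), ∀ τ : K →+* ℂ,
    ∃ I : Finset (Fin (Module.finrank ℚ K)), ∀ y : K,
      ‖τ y‖ ≤ ∑ i ∈ I, |x i y| ∧ ∀ i ∈ I, |x i y| ≤ ‖τ y‖

/-- cells of a progression `x₀ + s w` in any position: the sum of the cells of the coordinates
(increasing or reversed so that it is monotone in `s`; equal sums then mean equal cells) -/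
def S_LINE : Prop := ∀ (K : Type) [Field K] [NumberField K] (θ : ℝ), 0 < θ → θ < 1 →
  ∀ w : 𝓞 K, ∃ c' : ℝ, 1 ≤ c' ∧ ∀ (x₀ : 𝓞 K) (m : ℕ), 1 ≤ m → ∃ (N : ℕ) (κ : ℤ → ℕ),
    (N : ℝ) ≤ c' * (m : ℝ) ^ θ ∧ (∀ s : ℤ, 0 ≤ s → s < m → κ s < N) ∧
    ∀ s s' : ℤ, 0 ≤ s → s < m → 0 ≤ s' → s' < m → κ s = κ s' → ∀ τ : K →+* ℂ,
      ‖emb K (x₀ + s • w) τ - emb K (x₀ + s' • w) τ‖ ≤
        c' * (max 1 (max ‖emb K (x₀ + s • w) τ‖ ‖emb K (x₀ + s' • w) τ‖)) ^ (1 - θ)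

/-- the box of side `m` with corner `a` -/
def Box {K : Type} [Field K] {ι : Type} (ω : Module.Basis ι ℤ (𝓞 K)) (a : ι → ℤ) (m : ℕ) :
    Set (𝓞 K) := {x | ∀ i, a i ≤ ω.repr x i ∧ ω.repr x i < a i + m}

/-- cells of a box in any position: all the cells of the coordinates -/
def S_BOX : Prop := ∀ (K : Type) [Field K] [NumberField K] (θ : ℝ), 0 < θ → θ < 1 →
  ∀ (ι : Type) [Fintype ι] (ω : Module.Basis ι ℤ (𝓞 K)), ∃ c' : ℝ, 1 ≤ c' ∧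
  ∀ (a : ι → ℤ) (m : ℕ), 1 ≤ m → ∃ (N : ℕ) (κ : 𝓞 K → ℕ),
    (N : ℝ) ≤ c' * (m : ℝ) ^ (Module.finrank ℚ K * θ) ∧ (∀ x ∈ Box ω a m, κ x < N) ∧
    ∀ x ∈ Box ω a m, ∀ y ∈ Box ω a m, κ x = κ y → ∀ τ : K →+* ℂ,
      ‖emb K x τ - emb K y τ‖ ≤ c' * (max 1 (max ‖emb K x τ‖ ‖emb K y τ‖)) ^ (1 - θ)

/-- the general count, for any set of constants divided into cells -/
def S_GEN : Prop := ∀ (K : Type) [Field K] [NumberField K] (F : (𝓞 K)[X]) (b e : 𝓞 K) (B : ℕ),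
  2 ≤ F.natDegree → b ≠ 0 → 1 ≤ B → B < F.natDegree → ∀ c' : ℝ, 0 ≤ c' → ∃ C' : ℝ, 1 ≤ C' ∧
  ∀ (V : Finset (𝓞 K)) (N : ℕ) (κ : 𝓞 K → ℕ),
    (∀ x ∈ V, κ x < N ∧ HasPer K (F + C x) b e B) →
    (∀ x ∈ V, ∀ y ∈ V, κ x = κ y → ∀ τ : K →+* ℂ, ‖emb K x τ - emb K y τ‖ ≤
      c' * (max 1 (max ‖emb K x τ‖ ‖emb K y τ‖)) ^ (1 - (B : ℝ) / F.natDegree)) →
    (V.card : ℝ) ≤ C' * N

/-- progressions: the constant does not depend on the position `x₀` -/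
def S_MAIN1 : Prop := ∀ (K : Type) [Field K] [NumberField K] (F : (𝓞 K)[X]) (b e : 𝓞 K) (B : ℕ),
  2 ≤ F.natDegree → b ≠ 0 → 1 ≤ B → B < F.natDegree → ∀ w : 𝓞 K, w ≠ 0 → ∃ C' : ℝ, 1 ≤ C' ∧
  ∀ (x₀ : 𝓞 K) (m : ℕ), 1 ≤ m →
    (({s : ℤ | 0 ≤ s ∧ s < m ∧ HasPer K (F + C (x₀ + s • w)) b e B}.ncard : ℕ) : ℝ) ≤
      C' * (m : ℝ) ^ ((B : ℝ) / F.natDegree)

/-- boxes -/
def S_MAIN2 : Prop := ∀ (K : Type) [Field K] [NumberField K] (F : (𝓞 K)[X]) (b e : 𝓞 K) (B : ℕ),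
  2 ≤ F.natDegree → b ≠ 0 → 1 ≤ B → B < F.natDegree → ∀ (ι : Type) [Fintype ι]
  (ω : Module.Basis ι ℤ (𝓞 K)), ∃ C' : ℝ, 1 ≤ C' ∧ ∀ (a : ι → ℤ) (m : ℕ), 1 ≤ m →
    (({x : 𝓞 K | x ∈ Box ω a m ∧ HasPer K (F + C x) b e B}.ncard : ℕ) : ℝ) ≤
      C' * (m : ℝ) ^ (Module.finrank ℚ K * ((B : ℝ) / F.natDegree))

/-- the exponents are best possible: `F = y ^ (B q)`, `b = 1`, `e = -1`; fixed points `y ^ B = z`,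
constants `- z ^ q`, `z` an integer (progressions) or an integer of `K` (boxes) -/
def S_SHARP1 : Prop := ∀ (K : Type) [Field K] [NumberField K] (B q : ℕ), 1 ≤ B → 1 ≤ q →
  2 ≤ B * q → ∀ k : ℕ, k ≤ {s : ℤ | 0 ≤ s ∧ s < (k ^ q : ℕ) ∧
    HasPer K (X ^ (B * q) + C ((1 - (k : 𝓞 K) ^ q) + s • (1 : 𝓞 K))) 1 (-1) B}.ncard

def S_SHARP2 : Prop := ∀ (K : Type) [Field K] [NumberField K] (ι : Type) [Fintype ι]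
  (ω : Module.Basis ι ℤ (𝓞 K)) (B q : ℕ), 1 ≤ B → 1 ≤ q → 2 ≤ B * q → ∃ δ : ℝ, 0 < δ ∧
  ∀ m : ℕ, 1 ≤ m → δ * (m : ℝ) ^ ((Module.finrank ℚ K : ℝ) / q) ≤
    (({x : 𝓞 K | x ∈ Box ω (fun _ => -(m : ℤ)) (2 * m) ∧
      HasPer K (X ^ (B * q) + C x) 1 (-1) B}.ncard : ℕ) : ℝ)

/-- the range `B < d` is best possible: fixed points -/
def S_FULL : Prop := ∀ (K : Type) [Field K] [NumberField K] (F : (𝓞 K)[X]) (b e : 𝓞 K),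
  2 ≤ F.natDegree → b ≠ 0 → HasPer K F b e F.natDegree

end Pool.Agent.J4H48.HB
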